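import Pool.Agent.W477.GM.Stms

set_option linter.all false
set_option maxHeartbeats 1000000

namespace Pool.Agent.W477.GM.ND639

open Pool.Agent.W477.GM

/-- The coordinates of a condition are bounded. -/
theorem bdd (q : QQ) (a : Ordinal.{0}) : ∃ β, a ≤ β ∧ ∀ j, q.len j ≠ 0 → j.1 < β := by
  have h : BddAbove ((fun j : J => j.1) '' {j | q.len j ≠ 0}) := (q.fin.image _).bddAbove
  obtain ⟨b, hb⟩ := h
  refine ⟨max a (Order.succ b), le_max_left _ _, fun j hj => ?_⟩
  exact lt_of_lt_of_le (Order.lt_succ_of_le (hb ⟨j, hj, rfl⟩)) (le_max_right _ _)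

theorem swp_fst (c : Str) (β : Ordinal.{0}) (j : J) : (swp c β j).1 = j.1 := by
  unfold swp
  split_ifs <;> rfl

theorem swp_ne (c : Str) (β : Ordinal.{0}) (j : J) (h : j.1 ≠ β) : swp c β j = j := by
  unfold swp
  rw [if_neg]
  exact fun h' => h h'.1

/-- The twist of level `β` fixes the conditions without coordinates of level `β`. -/
theorem sig_fix {β : Ordinal.{0}} {s : QQ ≃o QQ} (hs : IsSig β s) (q : QQ)
    (hq : ∀ j, q.len j ≠ 0 → j.1 < β) : s q = q := by
  obtain ⟨h1, h2⟩ := hs q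
  have hz : ∀ j : J, j.1 = β → q.len j = 0 := by
    intro j hj
    by_contra h
    exact absurd (hq j h) (by rw [hj]; exact lt_irrefl _)
  have hlen : ∀ j, (s q).len j = q.len j := by
    intro j
    rw [(h2 j).1]
    by_cases hj : j.1 = β
    · rw [hz j hj, hz _ (by rw [swp_fst, hj])]
    · rw [swp_ne _ _ _ hj]
  refine Cn.ext' h1 hlen fun j o ho => ?_
  rw [(h2 j).2 o]
  by_cases hj : j.1 = β
  · rw [hlen, hz j hj] at ho
    exact absurd ho (not_lt.2 zero_le)
  · rw [swp_ne _ _ _ hj]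

/-- One more digit. -/
def more (s : QQ) : QQ where
  c := ⟨s.c.l ++ [false]⟩
  len := s.len
  bit := s.bit
  fin := s.fin
  lt := s.lt
  off := s.off
  sup j hj := by
    have h := s.sup j hj
    refine lt_of_lt_of_le h ?_
    unfold slen
    simp

theorem more_le (s : QQ) : more s ≤ s :=
  ⟨List.prefix_append _ _, fun j => ⟨le_rfl, fun _ _ => rfl⟩⟩

theorem more_len (s : QQ) : (more s).c.l.length = s.c.l.length + 1 := by
  simp [more]

theorem tau_le {s : QQ} {t : QQ ≃o QQ} (ht : IsTau s.c.l.length t) : t (more s) ≤ s := by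
  obtain ⟨h1, h2, h3, h4⟩ := ht (more s)
  refine ⟨?_, fun j => ⟨?_, fun o _ => ?_⟩⟩
  · show s.c.l <+: (t (more s)).c.l
    rw [List.prefix_iff_eq_take]
    refine List.ext_getElem ?_ ?_
    · rw [List.length_take, h3, more_len]
      omega
    · intro m hm1 hm2
      rw [List.getElem_take]
      have h5 := h4 m (by rw [more_len]; omega)
      rw [if_neg (by omega)] at h5
      have hm3 : m < (t (more s)).c.l.length := by rw [h3, more_len]; omega
      have hm4 : m < (more s).c.l.length := by rw [more_len]; omega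
      rw [List.getD_eq_getElem _ _ hm3, List.getD_eq_getElem _ _ hm4] at h5
      rw [h5]
      show s.c.l[m] = (s.c.l ++ [false])[m]
      rw [List.getElem_append_left hm1]
  · rw [h1]
    exact le_rfl
  · rw [h2]
    rfl

theorem nd_holds (h : P_EQ) (h1 : P_ACT) (h2 : P_FC) (h3 : P_HS) (hl : P_LIFT) (hlh : P_LIFTHS)
    (hsi : P_SIG) (ht : P_TAU) (ho : P_ON) (hs1 : P_SEQ1) (hs3 : P_SEQ3) (hc : P_CAX)
    (hk : P_KAP) (hs : P_SYSC) : P_ND := by
  intro φ v hv q
  have hE : EqF QQ := h QQ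
  have hA : ActF QQ := h1 QQ
  have hF : FcF QQ (HS SQ) := h2 QQ _
  have hsp : SysAx SP := hs hk Unit _ hc.1
  have hH : HsF PP SP := h3 PP SP hsp
  obtain ⟨on, hon⟩ := ho
  obtain ⟨a, ha⟩ := hH.livs ℕ v hv
  obtain ⟨β, haβ, hβ⟩ := bdd q a
  have hx0 : HS SQ (lift (sN on β)) := hlh.1 _ (hs1 on β)
  by_cases hcase : ∃ r, r ≤ q ∧ ∀ s, s ≤ r →
      ¬ Fc (HS SQ) φ (Function.update (fun i => lift (v i)) 0 (lift (sN on β))) s
  · obtain ⟨r, hr, hr2⟩ := hcase
    exact ⟨r, hr, lift (sN on β), hx0, Or.inl ⟨⟨sN on β, hs1 on β, rfl⟩, hr2⟩⟩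
  · push Not at hcase
    have hFc := hF.dense φ _ q hcase
    obtain ⟨sg, hsg, hsg2, hsg3, hsg4⟩ := hsi β
    have hinv : sg⁻¹ = sg := inv_eq_of_mul_eq_one_left hsg2
    have hFc2 := (hF.equiv sg hsg3 (by rw [hinv]; exact hsg3) φ _ q).2 hFc
    rw [sig_fix hsg q hβ] at hFc2
    have hfun : (fun i => act sg (Function.update (fun i => lift (v i)) 0 (lift (sN on β)) i)) =
        Function.update (fun i => lift (v i)) 0 (act sg (lift (sN on β))) := by
      funext i
      by_cases hi : i = 0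
      · subst hi
        rw [Function.update_self, Function.update_self]
      · rw [Function.update_of_ne hi, Function.update_of_ne hi]
        exact hsg4 _ (hH.liv_mono a β _ haβ (ha i))
    rw [hfun] at hFc2
    refine ⟨q, le_rfl, act sg (lift (sN on β)), hsg3 _ hx0, Or.inr ⟨hFc2, ?_⟩⟩
    intro s hsq y hy hfeq
    obtain ⟨t, htau, htt, htl⟩ := ht s.c.l.length
    have e1 : feq (act sg (lift (sN on β))) (lift y) (t (more s)) :=
      hE.mono _ _ _ _ (tau_le htau) hfeq
    have e2 : feq (act sg (lift (sN on β))) (lift y) (more s) :=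
      hE.mono _ _ _ _ (more_le s) hfeq
    have e3 := (hA.feq t _ _ _).2 e1
    have e4 : t (t (more s)) = more s := by
      have := congrArg (fun g : QQ ≃o QQ => g (more s)) htt
      exact this
    rw [e4, htl] at e3
    have e5 := hE.trans _ _ _ _ e2 (hE.symm _ _ _ e3)
    exact hs3 on hon β sg hsg hsg2 s.c.l.length t htau htt (more s) (by rw [more_len]; omega) e5

end Pool.Agent.W477.GM.ND639
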